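import Pool.Agent.V11325.ExclLaw

/-!
# Exclusion in a ballistic random environment can be slower than `N^{3/2}`
-/

open MeasureTheory Filter Topology

namespace Pool.Agent.Results.MP_39c14e_pr.SlowTrap

open Pool.Agent.V11325.ExclRE

/-- **The answer to Q1 is negative.** There are a ballistic law `P` on `[0, 1]` and particle
numbers `k(N) ∈ {1, …, N - 1}` such that (the quenched stationary distribution being almost surely
unique) for every `C` the probability that `t_mix ≤ C N^{3/2}` tends to `0`. -/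
theorem result : ∃ P : Measure ℝ, IsProbabilityMeasure P ∧ (∀ᵐ w ∂P, 0 ≤ w ∧ w ≤ 1) ∧
    Ballistic P ∧ ∃ k : ℕ → ℕ, (∀ N, 2 ≤ N → 1 ≤ k N ∧ k N ≤ N - 1) ∧
      (∀ N, 2 ≤ N → ∀ᵐ ω ∂(Measure.pi fun _ : Fin N => P),
        ∃! π : Conf N (k N) → ℝ, IsStat ω π) ∧
      ∀ C : ℝ, Tendsto (fun N : ℕ => (Measure.pi fun _ : Fin N => P)
        {ω | ∃ π : Conf N (k N) → ℝ, IsStat ω π ∧
          tmix ω π ≤ ENNReal.ofReal (C * (N : ℝ) ^ (3 / 2 : ℝ))}) atTop (𝓝 0) := by
  refine ⟨theLaw, good_theLaw.prob, ?_, ballistic_of_good good_theLaw, kk, ?_, ?_, ?_⟩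
  · filter_upwards [good_theLaw.ae] with w hw
    exact ⟨hw.1.le, hw.2.le⟩
  · intro N hN
    unfold kk
    omega
  · intro N hN
    filter_upwards [pi_ae (N := N) good_theLaw] with ω hω
    refine exists_stat hω ?_
    unfold kk
    omega
  · exact limit_bound good_theLaw

end Pool.Agent.Results.MP_39c14e_pr.SlowTrap
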